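import Mathlib

set_option autoImplicit false

namespace Pool.Agent.Results.MP_9704e3_al.Infinite

open Finset

/-- the horizontal class transpositions -/
def H : Set (Equiv.Perm ℤ) :=
  {t | ∃ k i j : ℤ, 2 ≤ k ∧ 0 ≤ i ∧ i < j ∧ j ≤ k - 1 ∧ ∀ n : ℤ,
    t n = if n % k = i then n + (j - i) else if n % k = j then n - (j - i) else n}

def tf (k i j n : ℤ) : ℤ :=
  if n % k = i then n + (j - i) else if n % k = j then n - (j - i) else n

theorem tf_spec (k i j n : ℤ) (h1 : 0 ≤ i) (h2 : i < j) (h3 : j ≤ k - 1) :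
    tf k i j n / k = n / k ∧ tf k i j n % k =
      if n % k = i then j else if n % k = j then i else n % k := by
  have hk : 0 < k := by omega
  have e := Int.emod_add_mul_ediv n k
  unfold tf
  split_ifs with a b
  · exact (Int.ediv_emod_unique hk).mpr ⟨by linarith, by omega, by omega⟩
  · exact (Int.ediv_emod_unique hk).mpr ⟨by linarith, by omega, by omega⟩
  · exact ⟨rfl, rfl⟩

theorem tf_inv (k i j : ℤ) (h1 : 0 ≤ i) (h2 : i < j) (h3 : j ≤ k - 1) :
    Function.Involutive (tf k i j) := by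
  intro n
  have := (tf_spec k i j n h1 h2 h3).2
  rw [tf, this]
  unfold tf
  split_ifs <;> omega

noncomputable def S (M : ℤ) (g : Equiv.Perm ℤ) : ℤ := ∑ x ∈ Ico 0 M, |g x - x|

theorem cnt (k q i : ℤ) (hk : 0 < k) (hq : 0 ≤ q) :
    (((Ico 0 (k * q)).filter fun n => n % k = i).card : ℤ) ≤ q := by
  have : ((Ico 0 (k * q)).filter fun n => n % k = i).card ≤ (Ico 0 q).card := by
    refine card_le_card_of_injOn (· / k) (fun n hn => ?_) fun a ha b hb h => ?_
    · simp only [coe_filter, mem_Ico, Set.mem_ofPred_eq, coe_Ico, Set.mem_Ico] at hn ⊢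
      exact ⟨Int.ediv_nonneg hn.1.1 hk.le, Int.ediv_lt_of_lt_mul hk (by linarith [hn.1.2])⟩
    · simp only [coe_filter, Set.mem_ofPred_eq] at ha hb h
      rw [← Int.emod_add_mul_ediv a k, ← Int.emod_add_mul_ediv b k, ha.2, hb.2, h]
  simp only [Int.card_Ico, sub_zero] at this
  omega

theorem step (l : List (Equiv.Perm ℤ)) (hl : ∀ t ∈ l, t ∈ H) : ∃ K : ℤ, 0 < K ∧ ∀ q, 0 ≤ q →
    (∀ x, l.prod x ∈ Ico 0 (K * q) ↔ x ∈ Ico 0 (K * q)) ∧
      S (K * q) l.prod ≤ 2 * l.length * (K * q) := by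
  induction l with
  | nil => exact ⟨1, one_pos, fun q _ => by simp [S]⟩
  | cons t l ih =>
    obtain ⟨K, hK, h⟩ := ih fun s hs => hl s (List.mem_cons_of_mem _ hs)
    obtain ⟨k, i, j, h0, h1, h2, h3, ht⟩ := hl t List.mem_cons_self
    have hk : 0 < k := by omega
    refine ⟨K * k, by positivity, fun q hq => ?_⟩
    obtain ⟨a1, a2⟩ := h (k * q) (by positivity)
    rw [← mul_assoc] at a1 a2
    have e : K * k * q = k * (K * q) := by ring
    have b1 : ∀ x, t x ∈ Ico 0 (K * k * q) ↔ x ∈ Ico 0 (K * k * q) := by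
      have k1 : ∀ y, y ∈ Ico 0 (K * k * q) ↔ 0 ≤ y / k ∧ y / k < K * q := fun y => by
        rw [mem_Ico, Int.ediv_nonneg_iff_of_pos hk, Int.ediv_lt_iff_lt_mul hk, e, mul_comm k]
      intro x
      rw [k1, k1, show t x / k = x / k from ht x ▸ (tf_spec k i j x h1 h2 h3).1]
    have b2 : S (K * k * q) t ≤ 2 * (K * k * q) := by
      have c1 := cnt k (K * q) i hk (by positivity)
      have c2 := cnt k (K * q) j hk (by positivity)
      calc S (K * k * q) t ≤ ∑ x ∈ Ico 0 (K * k * q),
            ((if x % k = i then k else 0) + if x % k = j then k else 0) := by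
            refine sum_le_sum fun x _ => ?_
            rw [ht, abs_le]
            split_ifs <;> omega
        _ ≤ _ := by
            rw [sum_add_distrib, ← sum_filter, ← sum_filter, sum_const, sum_const, nsmul_eq_mul,
              nsmul_eq_mul, e]
            nlinarith
    refine ⟨fun x => by rw [List.prod_cons, Equiv.Perm.mul_apply, b1, a1], ?_⟩
    have b3 : ∑ x ∈ Ico 0 (K * k * q), |t (l.prod x) - l.prod x| = S (K * k * q) t :=
      sum_equiv l.prod (fun x => (a1 x).symm) fun _ _ => rfl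
    calc _ ≤ ∑ x ∈ Ico 0 (K * k * q), (|t (l.prod x) - l.prod x| + |l.prod x - x|) :=
          sum_le_sum fun x _ => abs_sub_le _ _ _
      _ ≤ _ := by
          rw [sum_add_distrib, b3, List.length_cons]
          unfold S at a2
          push_cast
          linarith

theorem big (L : ℤ) (m : ℕ) (h : m ≤ L) : ∃ g ∈ Subgroup.closure H, ∀ x,
    g x = if x % (2 * L) < m then x + L else
      if L ≤ x % (2 * L) ∧ x % (2 * L) < L + m then x - L else x := by
  induction m with
  | zero =>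
    refine ⟨1, one_mem _, fun x => ?_⟩
    rcases h.eq_or_lt with e | e
    · simp [← e]
    have := Int.emod_nonneg x (show 2 * L ≠ 0 by omega)
    rw [if_neg (by omega), if_neg (by omega)]
    rfl
  | succ m ih =>
    obtain ⟨g, hg, h1⟩ := ih (by omega)
    have h2 : (m : ℤ) + L ≤ 2 * L - 1 := by omega
    have h3 : (m : ℤ) < m + L := by omega
    refine ⟨g * (tf_inv (2 * L) m (m + L) (by omega) h3 h2).toPerm, mul_mem hg
      (Subgroup.subset_closure ⟨2 * L, m, m + L, by omega, by omega, h3, h2, fun _ => rfl⟩),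
      fun x => ?_⟩
    change g (tf _ _ _ x) = _
    rw [h1, (tf_spec _ _ _ x (by omega) h3 h2).2, tf]
    push_cast
    split_ifs <;> omega

theorem result (n : ℕ) : ∃ g ∈ Subgroup.closure H,
    ¬ ∃ l : List (Equiv.Perm ℤ), l.length ≤ n ∧ (∀ t ∈ l, t ∈ H) ∧ l.prod = g := by
  obtain ⟨g, hg, h⟩ := big (2 * n + 1) (2 * n + 1) (by push_cast; rfl)
  refine ⟨g, hg, ?_⟩
  rintro ⟨l, h1, h2, rfl⟩
  obtain ⟨K, hK, h3⟩ := step l h2
  have h4 := (h3 1 zero_le_one).2
  have : S (K * 1) l.prod = K * (2 * n + 1) := by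
    rw [S, sum_congr rfl (g := fun _ => 2 * (n : ℤ) + 1)]
    · simp [hK.le]
    intro x _
    have := Int.emod_lt_of_pos x (show 0 < 2 * (2 * (n : ℤ) + 1) by omega)
    rw [h]
    push_cast
    split_ifs
    · rw [add_sub_cancel_left, abs_of_pos (by omega)]
    · rw [sub_sub_cancel_left, abs_neg, abs_of_pos (by omega)]
    · omega
  rw [this] at h4
  have : (l.length : ℤ) ≤ n := by exact_mod_cast h1
  nlinarith

end Pool.Agent.Results.MP_9704e3_al.Infinite
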